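import Mathlib
import Pool.Agent.Work.MP_e72e80_gt.Final

set_option autoImplicit false

open Pool.Agent.Work.MP_e72e80_gt

namespace Pool.Agent.Results.MP_e72e80_gt.TwoConvexNotLefschetz

/-- In every dimension `m ≥ 4` there is an open `2`-convex subset of Euclidean `m`-space that is
not Lefschetz-`2`-convex. -/
theorem result : ∀ m : ℕ, 4 ≤ m → ∃ Ω : Set (EuclideanSpace ℝ (Fin m)),
    IsOpen Ω ∧ IsKConvex 2 m Ω ∧ ¬ IsLefschetzKConvex 2 m Ω := by
  intro m hm
  obtain ⟨n, rfl⟩ : ∃ n, m = n + 4 := ⟨m - 4, by omega⟩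
  exact ⟨Om n, isOpen_Om n, isKConvex_Om n, not_lefschetz n⟩

end Pool.Agent.Results.MP_e72e80_gt.TwoConvexNotLefschetz
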